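import Mathlib
import Pool.Agent.Helper43.RamseyI

set_option autoImplicit false

/-!
MP_3a87f6_co, the explicit form of helper43's construction: on every field with `2^(4^(n+1))`
elements the cosets of the subgroup of index `3 (2^4+1) (2^16+1) ... (2^(4^n)+1)` of the
multiplicative group form a Ramsey scheme.
-/

namespace Pool.Agent.Helper19.BK.Ramsey

open Finset Polynomial Pool.Agent.Helper43.Ramsey

/-- the number of colors -/
def numCol (n : ℕ) : ℕ := 3 * ∏ k ∈ Finset.Icc 1 n, (2 ^ (4 ^ k) + 1)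

/-- the order of the subgroup -/
def ordH (n : ℕ) : ℕ := 5 * ∏ k ∈ Finset.range n, (2 ^ (4 * (2 * 4 ^ k)) + 1)

lemma numCol_succ (n : ℕ) : numCol (n + 1) = numCol n * (2 ^ (2 * (2 * 4 ^ n)) + 1) := by
  unfold numCol
  rw [Finset.prod_Icc_succ_top (by omega)]
  have : 4 ^ (n + 1) = 2 * (2 * 4 ^ n) := by ring
  rw [this]
  ring

lemma ordH_succ (n : ℕ) : ordH (n + 1) = ordH n * (2 ^ (4 * (2 * 4 ^ n)) + 1) := by
  unfold ordH
  rw [Finset.prod_range_succ]
  ring

lemma numCol_pos (n : ℕ) : 0 < numCol n := by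
  unfold numCol
  positivity

lemma numCol_strictMono : StrictMono numCol := by
  refine strictMono_nat_of_lt_succ fun n => ?_
  rw [numCol_succ]
  have h1 := numCol_pos n
  have h2 : 1 ≤ 2 ^ (2 * (2 * 4 ^ n)) := Nat.one_le_two_pow
  nlinarith

section Chain

variable {L : Type*} [Field L] [IsAlgClosed L] [CharP L 2]

theorem chainE (n : ℕ) :
    Good L (2 * 4 ^ n) (ordH n) ∧ ordH n * numCol n = 2 ^ (2 * (2 * 4 ^ n)) - 1 := by
  induction n with
  | zero =>
    refine ⟨?_, ?_⟩
    · have : ordH 0 = 5 := by simp [ordH]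
      rw [this]
      simpa using good_two (L := L)
    · simp [ordH, numCol]
  | succ n ih =>
    obtain ⟨hG, hm⟩ := ih
    have hC : Cov L (2 * 4 ^ n) := by
      rcases Nat.eq_zero_or_pos n with h0 | h0
      · rw [h0, pow_zero, mul_one]; exact cov_two
      · apply cov_of_le
        calc 4 = 4 ^ 1 := by norm_num
          _ ≤ 4 ^ n := Nat.pow_le_pow_right (by norm_num) h0
    have he : 1 ≤ 2 * 4 ^ n := by have := Nat.one_le_pow n 4 (by norm_num); omega
    have hG' := hG.step he hC
    have e1 : 4 * (2 * 4 ^ n) = 2 * 4 ^ (n + 1) := by ring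
    refine ⟨by rw [ordH_succ, ← e1]; exact hG', ?_⟩
    rw [ordH_succ, numCol_succ, ← e1]
    set e := 2 * 4 ^ n with hedef
    set h := ordH n with hh
    set m := numCol n with hmm
    obtain ⟨A, hA⟩ : ∃ A, 2 ^ (2 * e) = A + 1 :=
      ⟨2 ^ (2 * e) - 1, by have := Nat.one_le_two_pow (n := 2 * e); omega⟩
    have hA' : h * m = A := by rw [hm, hA]; rfl
    have e4 : 2 ^ (4 * e) = (A + 1) ^ 2 := by rw [← hA, ← pow_mul]; congr 1; ring
    have e8' : 2 ^ (2 * (4 * e)) = (A + 1) ^ 4 := by rw [← hA, ← pow_mul]; congr 1; ring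
    rw [e4, e8', hA]
    symm
    rw [Nat.sub_eq_iff_eq_add (Nat.one_le_pow _ _ (by omega))]
    rw [show h * ((A + 1) ^ 2 + 1) * (m * (A + 1 + 1)) = (h * m) * ((A + 1) ^ 2 + 1) * (A + 2) by
      ring, hA']
    ring

end Chain

section Transfer

variable {F : Type} [Field F] [Finite F]

/-- elements of an extension fixed by the Frobenius of `F` lie in `F` -/
lemma exists_of_pow_eq {L : Type} [Field L] [Algebra F L] (x : L) (hx : x ^ Nat.card F = x) :
    ∃ y : F, algebraMap F L y = x := by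
  classical
  haveI := Fintype.ofFinite F
  rw [Nat.card_eq_fintype_card] at hx
  have hq : 1 < Fintype.card F := Fintype.one_lt_card
  have hne : (X ^ Fintype.card F - X : L[X]) ≠ 0 := FiniteField.X_pow_card_sub_X_ne_zero L hq
  have hdeg : (X ^ Fintype.card F - X : L[X]).natDegree = Fintype.card F :=
    FiniteField.X_pow_card_sub_X_natDegree_eq L hq
  have hinj : Function.Injective (algebraMap F L) := (algebraMap F L).injective
  have hsub : (Finset.univ.image (algebraMap F L)) ⊆ (X ^ Fintype.card F - X : L[X]).roots.toFinset := by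
    intro z hz
    obtain ⟨y, -, rfl⟩ := Finset.mem_image.1 hz
    rw [Multiset.mem_toFinset, mem_roots hne]
    simp only [IsRoot, eval_sub, eval_pow, eval_X]
    rw [← map_pow, FiniteField.pow_card, sub_self]
  have hcard : (X ^ Fintype.card F - X : L[X]).roots.toFinset.card ≤
      (Finset.univ.image (algebraMap F L)).card := by
    rw [Finset.card_image_of_injective _ hinj, Finset.card_univ]
    calc _ ≤ (X ^ Fintype.card F - X : L[X]).roots.card := Multiset.toFinset_card_le _
      _ ≤ (X ^ Fintype.card F - X : L[X]).natDegree := card_roots' _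
      _ = _ := hdeg
  have heq := Finset.eq_of_subset_of_card_le hsub hcard
  have hxr : x ∈ (X ^ Fintype.card F - X : L[X]).roots.toFinset := by
    rw [Multiset.mem_toFinset, mem_roots hne]
    simp only [IsRoot, eval_sub, eval_pow, eval_X]
    rw [hx, sub_self]
  rw [← heq] at hxr
  obtain ⟨y, -, hy⟩ := Finset.mem_image.1 hxr
  exact ⟨y, hy⟩

/-- the two properties of `Good`, inside the finite field itself -/
theorem good_field (n : ℕ) (hF : Nat.card F = 2 ^ (4 ^ (n + 1))) :
    (∀ x : F, x + x = 0) ∧ ordH n * numCol n = Nat.card F - 1 ∧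
    (∀ a b : F, a ≠ 0 → b ≠ 0 → ¬ (a ^ ordH n = 1 ∧ b ^ ordH n = 1) →
      ∃ x : F, x ^ ordH n = a ^ ordH n ∧ (1 + x) ^ ordH n = b ^ ordH n) ∧
    (∀ x : F, x ^ ordH n = 1 → (1 + x) ^ ordH n = 1 → False) := by
  classical
  haveI := Fintype.ofFinite F
  have e1 : 4 ^ (n + 1) = 2 * (2 * 4 ^ n) := by ring
  have hchar : CharP F 2 := by
    have h2 : ((2 : ℕ) : F) = 0 := by
      have h1 : ((Fintype.card F : ℕ) : F) = 0 := FiniteField.cast_card_eq_zero F
      rw [← Nat.card_eq_fintype_card, hF, Nat.cast_pow] at h1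
      exact (pow_eq_zero_iff (by positivity)).1 h1
    exact (CharP.charP_iff_prime_eq_zero Nat.prime_two).2 h2
  let L := AlgebraicClosure F
  haveI : CharP L 2 := charP_of_injective_algebraMap (algebraMap F L).injective 2
  obtain ⟨hG, hm⟩ := chainE (L := L) n
  have hfix : ∀ x : F, (algebraMap F L x) ^ (2 ^ (2 * (2 * 4 ^ n))) = algebraMap F L x := by
    intro x
    rw [← e1, ← hF, Nat.card_eq_fintype_card, ← map_pow, FiniteField.pow_card]
  have hinj : Function.Injective (algebraMap F L) := (algebraMap F L).injective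
  refine ⟨fun x => CharTwo.add_self_eq_zero x, by rw [hF, e1]; exact hm, ?_, ?_⟩
  · intro a b ha hb hab
    obtain ⟨x, hx, hxa, hxb⟩ := hG.cover (algebraMap F L a) (algebraMap F L b)
      (by simpa using ha) (by simpa using hb) (hfix a) (hfix b) (by
        rintro ⟨h1, h2⟩
        apply hab
        constructor
        · apply hinj; rw [map_pow, h1, map_one]
        · apply hinj; rw [map_pow, h2, map_one])
    rw [← e1, ← hF] at hx
    obtain ⟨y, rfl⟩ := exists_of_pow_eq x hx
    refine ⟨y, ?_, ?_⟩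
    · apply hinj; rw [map_pow, map_pow, hxa]
    · apply hinj; rw [map_pow, map_pow, map_add, map_one, hxb]
  · intro x h1 h2
    apply hG.sf (algebraMap F L x) (hfix x)
    · rw [← map_pow, h1, map_one]
    · rw [← map_one (algebraMap F L), ← map_add, ← map_pow, h2]

/-- general solution of `x + y = w` with prescribed cosets -/
theorem two_term (n : ℕ) (hF : Nat.card F = 2 ^ (4 ^ (n + 1))) (a b w : F) (ha : a ≠ 0)
    (hb : b ≠ 0) (hw : w ≠ 0)
    (hne : ¬ (a ^ ordH n = w ^ ordH n ∧ b ^ ordH n = w ^ ordH n)) :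
    ∃ x : F, x ^ ordH n = a ^ ordH n ∧ (w + x) ^ ordH n = b ^ ordH n := by
  obtain ⟨-, -, hcov, -⟩ := good_field n hF
  have hwh : w ^ ordH n ≠ 0 := pow_ne_zero _ hw
  obtain ⟨x, hx1, hx2⟩ := hcov (a / w) (b / w) (div_ne_zero ha hw) (div_ne_zero hb hw) (by
    rintro ⟨h1, h2⟩
    apply hne
    rw [div_pow, div_eq_one_iff_eq hwh] at h1 h2
    exact ⟨h1, h2⟩)
  refine ⟨w * x, ?_, ?_⟩
  · rw [mul_pow, hx1, div_pow, mul_div_cancel₀ _ hwh]
  · rw [show w + w * x = w * (1 + x) by ring, mul_pow, hx2, div_pow, mul_div_cancel₀ _ hwh]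

end Transfer

end Pool.Agent.Helper19.BK.Ramsey
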